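import Pool.Agent.H140.FJ.Main

/-! Exact evaluation of the Jacobi sums with the quadratic character. -/

namespace Pool.Agent.H140.FJ

open NumberField Finset Polynomial

theorem lam_dvd_pow {k : ℕ} (c : ℕ) : z k - 1 ∣ z k ^ c - 1 := by
  have := sub_dvd_pow_sub_pow (z k) 1 c
  rwa [one_pow] at this

theorem lam_dvd_two (k : ℕ) : z k - 1 ∣ 2 := by
  have h := lam_dvd_pow (k := k) (2 ^ k)
  rw [z_half, show (-1 - 1 : O k) = -2 by norm_num] at h
  exact (dvd_neg).mp h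

theorem lam_not_unit (k : ℕ) : ¬ IsUnit (z k - 1) := by
  obtain ⟨ψ, hψ⟩ := exists_lift k (1 : ZMod 2) (by rw [one_pow]; decide)
  intro h
  have h1 := h.map ψ
  rw [map_sub, hψ, map_one, sub_self] at h1
  exact not_isUnit_zero h1

theorem two_lam_dvd_four (k : ℕ) : 2 * (z k - 1) ∣ 4 := by
  have := mul_dvd_mul_left (2 : O k) (lam_dvd_two k)
  rwa [show (2 : O k) * 2 = 4 by norm_num] at this

theorem eq_one_of_dvd {k c : ℕ} (h : 2 * (z k - 1) ∣ z k ^ c - 1) : z k ^ c = 1 := by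
  by_contra hne
  have hE : E (z k) ((c : ℕ) : ZMod (2 ^ (k + 1))) = z k ^ c := E_natCast (z_full k) c
  have h1 : ((c : ℕ) : ZMod (2 ^ (k + 1))) ≠ 0 := by
    intro h0
    rw [h0, E_zero] at hE
    exact hne hE.symm
  have h2 := sub_dvd_two h1
  rw [hE, E_zero] at h2
  have h3 := dvd_trans h h2
  apply lam_not_unit k
  obtain ⟨w, hw⟩ := h3
  have h4 : (2 : O k) * 1 = 2 * ((z k - 1) * w) := by rw [mul_one]; linear_combination hw
  have h5 := mul_left_cancel₀ (two_ne_zero) h4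
  exact IsUnit.of_mul_eq_one w h5.symm

section
variable {k p G : ℕ} [Fact p.Prime] (D : Dat k p G)

theorem chi_half (x : (ZMod p)ˣ) : ((chi D) ^ (2 ^ k)) x = 1 ∨ ((chi D) ^ (2 ^ k)) x = -1 := by
  obtain ⟨c, hc⟩ := chi_val D x
  rw [MulChar.pow_apply' _ (by positivity), hc, ← pow_mul, mul_comm, pow_mul, z_half]
  exact neg_one_pow_eq_or _ _

theorem term_dvd {a : ℕ} (ha : a ≠ 0) (x : ZMod p) :
    2 * (z k - 1) ∣ ((chi D ^ a) x - 1) * ((chi D ^ (2 ^ k)) (1 - x) - 1) := by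
  by_cases hx : x = 0
  · rw [hx, sub_zero, MulChar.map_one, sub_self, mul_zero]; exact dvd_zero _
  by_cases hx1 : 1 - x = 0
  · have : x = 1 := (sub_eq_zero.mp hx1).symm
    rw [this, MulChar.map_one, sub_self, zero_mul]; exact dvd_zero _
  rw [mul_comm 2]
  apply mul_dvd_mul
  · have hu : ((Units.mk0 x hx : (ZMod p)ˣ) : ZMod p) = x := rfl
    obtain ⟨c, hc⟩ := chi_val D (Units.mk0 x hx)
    rw [MulChar.pow_apply' _ ha, ← hu, hc, ← pow_mul]
    exact lam_dvd_pow _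
  · have hu : ((Units.mk0 (1 - x) hx1 : (ZMod p)ˣ) : ZMod p) = 1 - x := rfl
    rw [← hu]
    rcases chi_half D (Units.mk0 (1 - x) hx1) with h | h
    · rw [h, sub_self]; exact dvd_zero _
    · rw [h]; exact ⟨-1, by norm_num⟩

theorem jac_mod {a : ℕ} (ha : (a : ZMod (2 ^ (k + 1))) ≠ 0)
    (hb : ((2 ^ k : ℕ) : ZMod (2 ^ (k + 1))) ≠ 0) :
    2 * (z k - 1) ∣ jacobiSum (chi D ^ a) (chi D ^ (2 ^ k)) + 1 := by
  have ha0 : a ≠ 0 := by rintro rfl; simp at ha
  have h1 : ∑ x : ZMod p, ((chi D ^ a) x - 1) * ((chi D ^ (2 ^ k)) (1 - x) - 1)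
      = jacobiSum (chi D ^ a) (chi D ^ (2 ^ k)) + p := by
    have e1 : ∑ x : ZMod p, (chi D ^ a) x = 0 := MulChar.sum_eq_zero_of_ne_one (chi_pow_ne D a ha)
    have e2 : ∑ x : ZMod p, (chi D ^ (2 ^ k)) (1 - x) = 0 := by
      rw [← MulChar.sum_eq_zero_of_ne_one (chi_pow_ne D (2 ^ k) hb)]
      exact Fintype.sum_equiv (Equiv.subLeft (1 : ZMod p)) _ _ (fun x => rfl)
    have e3 : ∑ x : ZMod p, (1 : O k) = p := by
      rw [Finset.sum_const, Finset.card_univ, ZMod.card, nsmul_eq_mul, mul_one]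
    have e4 : ∀ x : ZMod p, ((chi D ^ a) x - 1) * ((chi D ^ (2 ^ k)) (1 - x) - 1)
        = (chi D ^ a) x * (chi D ^ (2 ^ k)) (1 - x) - (chi D ^ a) x - (chi D ^ (2 ^ k)) (1 - x) + 1 :=
      fun x => by ring
    simp_rw [e4]
    rw [Finset.sum_add_distrib, Finset.sum_sub_distrib, Finset.sum_sub_distrib, e1, e2, e3,
      jacobiSum]
    ring
  have h2 : 2 * (z k - 1) ∣ jacobiSum (chi D ^ a) (chi D ^ (2 ^ k)) + p := by
    rw [← h1]
    exact Finset.dvd_sum fun x _ => term_dvd D ha0 x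
  have h3 : 2 * (z k - 1) ∣ (p : O k) - 1 := by
    refine dvd_trans (two_lam_dvd_four k) ?_
    have h4 : 4 ∣ G ^ (2 ^ k) := by
      have h2 : 2 ≤ 2 ^ k := by
        calc 2 = 2 ^ 1 := rfl
          _ ≤ 2 ^ k := Nat.pow_le_pow_right (by norm_num) D.hk
      have h5 : 2 ^ 2 ∣ G ^ 2 := pow_dvd_pow_of_dvd (even_iff_two_dvd.mp D.hE) 2
      exact dvd_trans (by simpa using h5) (pow_dvd_pow G h2)
    obtain ⟨w, hw⟩ := h4
    have h6 : (p : O k) = ((4 * w + 1 : ℕ) : O k) := by rw [← hw, ← D.hG]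
    exact ⟨w, by rw [h6]; push_cast; ring⟩
  have := dvd_sub h2 h3
  rwa [show jacobiSum (chi D ^ a) (chi D ^ (2 ^ k)) + (p : O k) - ((p : O k) - 1)
    = jacobiSum (chi D ^ a) (chi D ^ (2 ^ k)) + 1 by ring] at this

end

theorem prod_pr_mod {k G : ℕ} (hE : Even G) (S : Finset (ZMod (2 ^ (k + 1)))ˣ) :
    2 * (z k - 1) ∣ ∏ t ∈ S, pr k G t - (1 - (G : O k) * S.card) := by
  classical
  obtain ⟨G', hG'⟩ := hE
  have hGd : (G : O k) = 2 * G' := by rw [hG']; push_cast; ring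
  induction S using Finset.induction_on with
  | empty => simp
  | insert t S ht ih =>
    rw [Finset.prod_insert ht, Finset.card_insert_of_notMem ht]
    set w : O k := E (z k) (-((t⁻¹ : (ZMod (2 ^ (k + 1)))ˣ) : ZMod (2 ^ (k + 1)))) with hw
    have hpr : pr k G t = 1 - G * w := rfl
    have h1 : 2 * (z k - 1) ∣ (G : O k) * (w - 1) := by
      rw [hGd, mul_assoc]
      apply mul_dvd_mul_left
      exact Dvd.dvd.mul_left (lam_dvd_pow _) _
    have h2 : 2 * (z k - 1) ∣ (G : O k) ^ 2 * (S.card * w) := by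
      refine dvd_trans (two_lam_dvd_four k) ⟨G' ^ 2 * (S.card * w), by rw [hGd]; ring⟩
    have h3 : 2 * (z k - 1) ∣ pr k G t * (∏ t ∈ S, pr k G t - (1 - (G : O k) * S.card)) :=
      Dvd.dvd.mul_left ih _
    have h4 := dvd_add (dvd_sub h3 h1) h2
    convert h4 using 1
    rw [hpr]
    push_cast
    ring

theorem card_TT {k : ℕ} {a b : ZMod (2 ^ (k + 1))} (ha : a ≠ 0) (hb : b ≠ 0)
    (hab : a + b ≠ 0) : 2 * (TT k a b).card = 2 ^ k := by
  have h1 : (TT k a b).card = (TT k a b)ᶜ.card := by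
    refine Finset.card_bij' (fun t _ => -t) (fun t _ => -t) ?_ ?_ ?_ ?_
    · intro t ht
      rw [Finset.mem_compl, neg_mem_TT ha hb hab]
      exact not_not.mpr ht
    · intro t ht
      rw [neg_mem_TT ha hb hab]
      exact Finset.mem_compl.mp ht
    · intro t _; exact neg_neg t
    · intro t _; exact neg_neg t
  have h2 := Finset.card_add_card_compl (TT k a b)
  rw [← h1, ZMod.card_units_eq_totient, Nat.totient_prime_pow_succ Nat.prime_two] at h2
  omega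

section
variable {k p G : ℕ} [Fact p.Prime] (D : Dat k p G)

include D in
theorem prod_pr_one {a b : ZMod (2 ^ (k + 1))} (ha : a ≠ 0) (hb : b ≠ 0)
    (hab : a + b ≠ 0) (h4 : 2 ≤ k ∨ 4 ∣ G) :
    2 * (z k - 1) ∣ ∏ t ∈ TT k a b, pr k G t - 1 := by
  have h1 := prod_pr_mod D.hE (TT k a b)
  have h2 : 4 ∣ G * (TT k a b).card := by
    rcases h4 with h | h
    · have h3 := card_TT ha hb hab
      obtain ⟨k', rfl⟩ : ∃ k', k = k' + 2 := ⟨k - 2, by omega⟩
      have h5 : (TT (k' + 2) a b).card = 2 * 2 ^ k' := by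
        have : 2 ^ (k' + 2) = 4 * 2 ^ k' := by ring
        omega
      rw [h5]
      obtain ⟨G', hG'⟩ := D.hE
      exact ⟨G' * 2 ^ k', by rw [hG']; ring⟩
    · exact Dvd.dvd.mul_right h _
  obtain ⟨w, hw⟩ := h2
  have h3 : 2 * (z k - 1) ∣ (G : O k) * (TT k a b).card := by
    refine dvd_trans (two_lam_dvd_four k) ⟨w, ?_⟩
    exact_mod_cast hw
  have := dvd_sub h1 h3
  convert this using 1
  ring

/-- **the Jacobi sums with the quadratic character** -/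
theorem jac_exact {a : ℕ} (ha : (a : ZMod (2 ^ (k + 1))) ≠ 0)
    (hb : ((2 ^ k : ℕ) : ZMod (2 ^ (k + 1))) ≠ 0)
    (hab : (a : ZMod (2 ^ (k + 1))) + ((2 ^ k : ℕ) : ZMod (2 ^ (k + 1))) ≠ 0)
    (h4 : 2 ≤ k ∨ 4 ∣ G) :
    jacobiSum (chi D ^ a) (chi D ^ (2 ^ k)) = - ∏ t ∈ TT k a ((2 ^ k : ℕ) : ZMod (2 ^ (k + 1))), pr k G t := by
  obtain ⟨c, hc⟩ := jac_eval D ha hb hab
  have h1 := jac_mod D ha hb
  have h2 := prod_pr_one D ha hb hab h4
  have hpa : z k ^ (c + 2 ^ k) = - z k ^ c := by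
    have := pow_add (z k) c (2 ^ k)
    rw [z_half] at this
    rw [this]; ring
  have h3 : 2 * (z k - 1) ∣ z k ^ (c + 2 ^ k) - 1 := by
    have e : z k ^ (c + 2 ^ k) - 1 =
        z k ^ c * (∏ t ∈ TT k a ((2 ^ k : ℕ) : ZMod (2 ^ (k + 1))), pr k G t - 1)
        - (jacobiSum (chi D ^ a) (chi D ^ (2 ^ k)) + 1) := by
      rw [hpa, hc]; ring
    rw [e]
    exact dvd_sub (Dvd.dvd.mul_left h2 _) h1
  have h5 := eq_one_of_dvd h3
  rw [hpa] at h5
  have h6 : z k ^ c = -1 := by linear_combination -h5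
  rw [hc, h6]
  ring

end

end Pool.Agent.H140.FJ
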