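import Pool.Agent.H140.FJ.Red

/-! Fermat numbers. -/

namespace Pool.Agent.H140.FJ

open NumberField Finset Polynomial

/-- the product attached to `a, b` at level `2^j`, modulo the Fermat number `F_m` -/
def P (m j a b : ℕ) : ZMod (Nat.fermatNumber m) :=
  ∏ t ∈ univ.filter (fun t : (ZMod (2 ^ j))ˣ =>
      ((t : ZMod (2 ^ j)) * a).val + ((t : ZMod (2 ^ j)) * b).val < 2 ^ j),
    (1 - 2 ^ (2 ^ (m + 1 - j) * (1 + ((t⁻¹ : (ZMod (2 ^ j))ˣ) : ZMod (2 ^ j)).val)))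

/-- `M = (F_m - 1)/2^j` -/
def M (m j : ℕ) : ℕ := (Nat.fermatNumber m - 1) / 2 ^ j

theorem M_eq {m j : ℕ} (h : j ≤ 2 ^ m) : M m j = 2 ^ (2 ^ m - j) := by
  rw [M, Nat.fermatNumber, Nat.add_sub_cancel, Nat.pow_div h (by norm_num)]

theorem dat {m k : ℕ} (hk : 1 ≤ k) (hkm : k ≤ m) (hp : (Nat.fermatNumber m).Prime) :
    Dat k (Nat.fermatNumber m) (2 ^ (2 ^ (m - k))) := by
  refine ⟨hk, hp, ?_, ?_⟩
  · rw [Nat.fermatNumber, ← pow_mul, ← pow_add, Nat.sub_add_cancel hkm]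
  · exact (Nat.even_pow.mpr ⟨even_two, by positivity⟩)

theorem P_eq {m k a b : ℕ} :
    P m (k + 1) a b = Pd k ((2 ^ (2 ^ (m - k)) : ℕ) : ZMod (Nat.fermatNumber m))
      (a : ZMod (2 ^ (k + 1))) (b : ZMod (2 ^ (k + 1))) := by
  rw [P, Pd]
  apply Finset.prod_congr rfl
  intro t _
  rw [Nat.add_sub_add_right, Nat.cast_pow, ← pow_mul]
  rfl

theorem four_or {m k : ℕ} (hm : 2 ≤ m) (hk : 1 ≤ k) : 2 ≤ k ∨ 4 ∣ 2 ^ (2 ^ (m - k)) := by
  rcases Nat.lt_or_ge k 2 with h | h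
  · right
    have : k = 1 := by omega
    subst this
    have h2 : 2 ^ 1 ≤ 2 ^ (m - 1) := Nat.pow_le_pow_right (by norm_num) (by omega)
    exact pow_dvd_pow 2 (by omega : 2 ≤ 2 ^ (m - 1))
  · left; exact h

theorem two_pow_bound {m : ℕ} (hm : 3 ≤ m) : 2 * m + 1 ≤ 2 ^ m := by
  induction m with
  | zero => omega
  | succ m ih =>
    rcases Nat.lt_or_ge m 3 with h | h
    · have : m = 2 := by omega
      subst this; norm_num
    · have := ih h
      rw [pow_succ]; omega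

theorem M_even {m j : ℕ} (hm : 3 ≤ m) (hj : j ≤ m + 1) : Even (M m j) := by
  have := two_pow_bound hm
  rw [M_eq (by omega)]
  exact Nat.even_pow.mpr ⟨even_two, by omega⟩

section
variable {m : ℕ} (hm : 3 ≤ m) [hF : Fact (Nat.fermatNumber m).Prime]

theorem two_pow_half (m : ℕ) : (2 : ZMod (Nat.fermatNumber m)) ^ (2 ^ m) = -1 := by
  have h : ((2 ^ (2 ^ m) + 1 : ℕ) : ZMod (Nat.fermatNumber m)) = 0 := ZMod.natCast_self _
  push_cast at h
  linear_combination h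

theorem two_pow_full (m : ℕ) : (2 : ZMod (Nat.fermatNumber m)) ^ (2 ^ (m + 1)) = 1 := by
  rw [pow_succ, pow_mul, two_pow_half]; norm_num

include hm hF

/-- all binomial coefficients -/
theorem binom_eval {j : ℕ} (hj : 2 ≤ j) (hjm : j ≤ m + 1) {a b : ℕ} (ha : 1 ≤ a) (hb : 1 ≤ b)
    (hab : a + b < 2 ^ j) :
    ∃ c, (((a + b) * M m j).choose (a * M m j) : ZMod (Nat.fermatNumber m)) = 2 ^ c * P m j a b := by
  obtain ⟨k, rfl⟩ : ∃ k, j = k + 1 := ⟨j - 1, by omega⟩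
  obtain ⟨c, hc⟩ := choose_eval (dat (by omega) (by omega) hF.out) ha hb hab
  refine ⟨2 ^ (m - k) * c, ?_⟩
  rw [P_eq, pow_mul]
  have : MM k (Nat.fermatNumber m) = M m (k + 1) := rfl
  rw [← this, hc]
  push_cast
  rfl

theorem half_eval {j : ℕ} (hj : 2 ≤ j) (hjm : j ≤ m + 1) :
    (((Nat.fermatNumber m - 1) / 2).choose (M m j) : ZMod (Nat.fermatNumber m)) = P m j 1 1 := by
  obtain ⟨k, rfl⟩ : ∃ k, j = k + 1 := ⟨j - 1, by omega⟩
  have h := half_choose (dat (by omega) (by omega) hF.out) (four_or (by omega) (by omega))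
    (M_even hm hjm)
  rw [P_eq]
  exact h

theorem central_eval {j : ℕ} (hj : 2 ≤ j) (hjm : j ≤ m + 1) :
    ((2 * M m j).choose (M m j) : ZMod (Nat.fermatNumber m)) = P m j 1 1 := by
  have hb := two_pow_bound hm
  have hM := M_eq (show j ≤ 2 ^ m by omega)
  have e1 : Nat.fermatNumber m = 2 * (2 ^ (2 ^ m - 1)) + 1 := by
    rw [Nat.fermatNumber, ← pow_succ', Nat.sub_add_cancel (by omega)]
  have h1 := central_half e1 (M m j) (by
    rw [hM]; exact Nat.pow_le_pow_right (by norm_num) (by omega))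
  have h2 : (2 ^ (2 ^ m - 1)) = (Nat.fermatNumber m - 1) / 2 := by omega
  rw [h2, half_eval hm hj hjm] at h1
  have h3 : ((-4 : ZMod (Nat.fermatNumber m))) ^ (M m j) = 1 := by
    rw [(M_even hm hjm).neg_pow, show (4 : ZMod (Nat.fermatNumber m)) = 2 ^ 2 by norm_num, ← pow_mul, hM]
    obtain ⟨q, hq⟩ : 2 ^ (m + 1) ∣ 2 * 2 ^ (2 ^ m - j) := by
      rw [← pow_succ']
      exact pow_dvd_pow 2 (by omega)
    rw [hq, pow_mul, two_pow_full, one_pow]
  rw [h3, one_mul] at h1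
  exact h1

theorem half_fact_sq :
    ((((Nat.fermatNumber m - 1) / 2).factorial : ℕ) : ZMod (Nat.fermatNumber m)) ^ 2 = -1 := by
  have hb := two_pow_bound hm
  set p := Nat.fermatNumber m with hp
  have e1 : p = 2 * (2 ^ (2 ^ m - 1)) + 1 := by
    rw [hp, Nat.fermatNumber, ← pow_succ', Nat.sub_add_cancel (by omega)]
  have h2 : (p - 1) / 2 = 2 ^ (2 ^ m - 1) := by omega
  have hev : Even (2 ^ (2 ^ m - 1)) := Nat.even_pow.mpr ⟨even_two, by omega⟩
  have h3 := choose_reflect (p := p) (c := 0) (d := 2 ^ (2 ^ m - 1)) (by omega)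
  rw [hev.neg_one_pow, Nat.sub_zero, zero_add, Nat.choose_self, Nat.cast_one, one_mul] at h3
  have h4 := Nat.choose_mul_factorial_mul_factorial (show 2 ^ (2 ^ m - 1) ≤ p - 1 by omega)
  rw [show p - 1 - 2 ^ (2 ^ m - 1) = 2 ^ (2 ^ m - 1) by omega] at h4
  have h5 := congrArg (Nat.cast (R := ZMod p)) h4
  rw [Nat.cast_mul, Nat.cast_mul, h3, one_mul, ZMod.wilsons_lemma, ← pow_two] at h5
  rw [h2]
  exact h5

theorem fact_step {j : ℕ} (hj : 2 ≤ j) (hjm : j ≤ m + 1) :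
    (((M m (j - 1)).factorial : ℕ) : ZMod (Nat.fermatNumber m)) =
      P m j 1 1 * (((M m j).factorial : ℕ) : ZMod (Nat.fermatNumber m)) ^ 2 := by
  have hb := two_pow_bound hm
  have h1 : M m (j - 1) = 2 * M m j := by
    rw [M_eq (by omega), M_eq (by omega), ← pow_succ']
    congr 1; omega
  rw [← central_eval hm hj hjm, h1]
  have h4 := Nat.choose_mul_factorial_mul_factorial (show M m j ≤ 2 * M m j by omega)
  rw [show 2 * M m j - M m j = M m j by omega] at h4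
  rw [← h4]
  push_cast
  ring

theorem fact_eval {j : ℕ} (hj : 1 ≤ j) (hjm : j ≤ m + 1) :
    (((M m j).factorial : ℕ) : ZMod (Nat.fermatNumber m)) ^ (2 ^ j) *
      ∏ i ∈ Finset.Icc 2 j, P m i 1 1 ^ (2 ^ (i - 1)) = -1 := by
  induction j with
  | zero => omega
  | succ j ih =>
    rcases Nat.eq_zero_or_pos j with h | h
    · subst h
      have := half_fact_sq hm
      simpa [M] using this
    · have h1 := ih h (by omega)
      have h2 := fact_step hm (show 2 ≤ j + 1 by omega) hjm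
      rw [Nat.add_sub_cancel] at h2
      rw [h2] at h1
      rw [Finset.prod_Icc_succ_top (by omega), Nat.add_sub_cancel, ← h1]
      ring

end

/-- a composite Fermat number has a prime factor below `M_j` -/
theorem factor_le {m : ℕ} (hm : 3 ≤ m) (hF : ¬ (Nat.fermatNumber m).Prime) {j : ℕ}
    (hjm : j ≤ m + 1) : (Nat.fermatNumber m).minFac ≤ M m j := by
  have hb := two_pow_bound hm
  have h1 : (Nat.fermatNumber m).minFac ^ 2 ≤ Nat.fermatNumber m :=
    Nat.minFac_sq_le_self (by rw [Nat.fermatNumber]; positivity) hF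
  have h2 : (Nat.fermatNumber m).minFac ≤ 2 ^ (2 ^ (m - 1)) := by
    by_contra hcon
    have h3 : 2 ^ (2 ^ (m - 1)) + 1 ≤ (Nat.fermatNumber m).minFac := by omega
    have h4 : (2 ^ (2 ^ (m - 1)) + 1) ^ 2 ≤ Nat.fermatNumber m :=
      le_trans (Nat.pow_le_pow_left h3 2) h1
    have h5 : Nat.fermatNumber m = (2 ^ (2 ^ (m - 1))) ^ 2 + 1 := by
      rw [Nat.fermatNumber, ← pow_mul, ← pow_succ, Nat.sub_add_cancel (by omega)]
    have h6 : 0 < 2 ^ (2 ^ (m - 1)) := by positivity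
    nlinarith
  refine le_trans h2 ?_
  rw [M_eq (by omega)]
  apply Nat.pow_le_pow_right (by norm_num)
  obtain ⟨m', rfl⟩ : ∃ m', m = m' + 1 := ⟨m - 1, by omega⟩
  rw [Nat.add_sub_cancel]
  have h7 : m' + 2 ≤ 2 ^ m' := by
    rcases Nat.lt_or_ge m' 3 with h | h
    · have : m' = 2 := by omega
      subst this; norm_num
    · have := two_pow_bound h; omega
  have h8 : 2 ^ (m' + 1) = 2 * 2 ^ m' := by ring
  omega

theorem prime_of_unit {m : ℕ} (hm : 3 ≤ m) {j : ℕ} (hjm : j ≤ m + 1)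
    (h : IsUnit (((M m j).factorial : ℕ) : ZMod (Nat.fermatNumber m))) :
    (Nat.fermatNumber m).Prime := by
  by_contra hF
  have h1 := factor_le hm hF hjm
  set q := (Nat.fermatNumber m).minFac with hq
  have hne : Nat.fermatNumber m ≠ 1 := by
    rw [Nat.fermatNumber]
    have : 0 < 2 ^ (2 ^ m) := by positivity
    omega
  have hqp : q.Prime := Nat.minFac_prime hne
  have h2 : q ∣ (M m j).factorial := (Nat.Prime.dvd_factorial hqp).mpr h1
  rw [ZMod.isUnit_iff_coprime] at h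
  have h3 : q ∣ Nat.gcd (M m j).factorial (Nat.fermatNumber m) :=
    Nat.dvd_gcd h2 (Nat.minFac_dvd _)
  rw [Nat.Coprime] at h
  rw [h] at h3
  exact hqp.one_lt.ne' (Nat.dvd_one.mp h3)

end Pool.Agent.H140.FJ
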