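import Pool.Agent.H140.FJ.Ker

/-! The Jacobi sums of `2`-power order modulo `p = G^(2^k) + 1`. -/

namespace Pool.Agent.H140.FJ

open NumberField Finset Polynomial

/-- `M = (p-1)/n` -/
def MM (k p : ℕ) : ℕ := (p - 1) / 2 ^ (k + 1)

theorem nM {k p G : ℕ} (D : Dat k p G) : 2 ^ (k + 1) * MM k p = p - 1 := by
  apply Nat.mul_div_cancel'
  rw [D.hG, Nat.add_sub_cancel]
  have h1 : 2 ^ (2 ^ k) ∣ G ^ (2 ^ k) := pow_dvd_pow_of_dvd (even_iff_two_dvd.mp D.hE) _
  have h2 : k + 1 ≤ 2 ^ k := Nat.lt_two_pow_self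
  exact dvd_trans (pow_dvd_pow 2 h2) h1

theorem G_pos {k p G : ℕ} (D : Dat k p G) : 0 < G := by
  rcases Nat.eq_zero_or_pos G with h | h
  · exfalso
    have h1 := D.hG
    rw [h, zero_pow (by positivity)] at h1
    exact D.hp.ne_one (by omega)
  · exact h

theorem p_ge {k p G : ℕ} (D : Dat k p G) : 5 ≤ p := by
  have h1 : 2 ≤ G := by
    have := G_pos D
    obtain ⟨c, hc⟩ := D.hE
    omega
  have h2 : 2 ≤ 2 ^ k := by
    calc 2 = 2 ^ 1 := rfl
      _ ≤ 2 ^ k := Nat.pow_le_pow_right (by norm_num) D.hk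
  have h3 : 2 ^ 2 ≤ G ^ (2 ^ k) :=
    le_trans (Nat.pow_le_pow_left h1 2) (Nat.pow_le_pow_right (by omega) h2)
  have := D.hG
  omega

theorem M_pos {k p G : ℕ} (D : Dat k p G) : 0 < MM k p := by
  rcases Nat.eq_zero_or_pos (MM k p) with h | h
  · exfalso
    have h1 := nM D
    rw [h, mul_zero] at h1
    have := p_ge D
    omega
  · exact h

section
variable {k p G : ℕ} [Fact p.Prime]

theorem pow_congr {x : ZMod p} (hx : x ≠ 0) {A A' : ℕ} (h : A ≡ A' [MOD p - 1]) :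
    x ^ A = x ^ A' := by
  have h1 : x ^ (p - 1) = 1 := ZMod.pow_card_sub_one_eq_one hx
  have h2 : ∀ B : ℕ, x ^ B = x ^ (B % (p - 1)) := by
    intro B
    conv_lhs => rw [← Nat.div_add_mod B (p - 1), pow_add, pow_mul, h1, one_pow, one_mul]
  rw [h2 A, h2 A', h]

theorem g_prim (D : Dat k p G) : IsPrimitiveRoot (G : ZMod p) (2 ^ (k + 1)) := by
  have : Fact (Nat.Prime 2) := ⟨Nat.prime_two⟩
  have h1 : orderOf (G : ZMod p) = 2 ^ (k + 1) := by
    apply orderOf_eq_prime_pow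
    · rw [g_half D]
      intro h
      have h2 : ((2 : ℕ) : ZMod p) = 0 := by push_cast; linear_combination -h
      rw [ZMod.natCast_eq_zero_iff] at h2
      have h3 := Nat.le_of_dvd (by norm_num) h2
      have h4 := p_ge D
      omega
    · exact g_full D
  rw [← h1]
  exact IsPrimitiveRoot.orderOf _

/-- the power residue character -/
theorem exists_chi (D : Dat k p G) : ∃ χ : MulChar (ZMod p) (O k),
    (∀ t : (ZMod (2 ^ (k + 1)))ˣ, ∀ x : (ZMod p)ˣ,
      phi D t (χ x) = (x : ZMod p) ^ ((t : ZMod (2 ^ (k + 1))).val * MM k p)) ∧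
    (∀ x : (ZMod p)ˣ, ∃ c, χ x = z k ^ c) := by
  obtain ⟨γ, hγ⟩ := IsCyclic.exists_generator (α := (ZMod p)ˣ)
  have h1 : ((γ : ZMod p) ^ MM k p) ^ (2 ^ (k + 1)) = 1 := by
    rw [← pow_mul, mul_comm, nM D]
    exact ZMod.pow_card_sub_one_eq_one γ.ne_zero
  obtain ⟨i, -, hi⟩ := (g_prim D).eq_pow_of_pow_eq_one h1
  have hzu : IsUnit (z k) := (z_prim k).isUnit (by positivity)
  let μ : (O k)ˣ := hzu.unit ^ i
  have hcard : Fintype.card (ZMod p)ˣ = p - 1 := ZMod.card_units p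
  have hμ : μ ∈ rootsOfUnity (Fintype.card (ZMod p)ˣ) (O k) := by
    rw [mem_rootsOfUnity, hcard]
    apply Units.ext
    simp only [μ, Units.val_pow_eq_pow_val, IsUnit.unit_spec, Units.val_one]
    rw [← pow_mul, mul_comm, ← nM D, pow_mul, pow_mul, z_full, one_pow, one_pow]
  have hval : MulChar.ofRootOfUnity hμ hγ (γ : ZMod p) = z k ^ i := by
    rw [MulChar.ofRootOfUnity_spec]
    simp [μ]
  have hpow : ∀ x : (ZMod p)ˣ, ∃ l : ℕ, x = γ ^ l := by
    intro x
    have := (isOfFinOrder_of_finite γ).mem_powers_iff_mem_zpowers.mpr (hγ x)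
    obtain ⟨l, hl⟩ := this
    exact ⟨l, hl.symm⟩
  refine ⟨MulChar.ofRootOfUnity hμ hγ, ?_, ?_⟩
  · intro t x
    obtain ⟨l, hl⟩ := hpow x
    rw [hl, Units.val_pow_eq_pow_val, map_pow, hval, map_pow, map_pow, phi_z, E]
    calc (((G : ZMod p) ^ (t : ZMod (2 ^ (k + 1))).val) ^ i) ^ l
        = (((G : ZMod p) ^ i) ^ (t : ZMod (2 ^ (k + 1))).val) ^ l := by ring
      _ = _ := by rw [hi]; ring
  · intro x
    obtain ⟨l, hl⟩ := hpow x
    exact ⟨i * l, by rw [hl, Units.val_pow_eq_pow_val, map_pow, hval, ← pow_mul]⟩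

end

/-- the power residue character -/
noncomputable def chi {k p G : ℕ} [Fact p.Prime] (D : Dat k p G) : MulChar (ZMod p) (O k) :=
  (exists_chi D).choose

section
variable {k p G : ℕ} [Fact p.Prime] (D : Dat k p G)

theorem phi_chi (t : (ZMod (2 ^ (k + 1)))ˣ) (x : (ZMod p)ˣ) :
    phi D t (chi D x) = (x : ZMod p) ^ ((t : ZMod (2 ^ (k + 1))).val * MM k p) :=
  (exists_chi D).choose_spec.1 t x

theorem chi_val (x : (ZMod p)ˣ) : ∃ c, chi D x = z k ^ c := (exists_chi D).choose_spec.2 x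

/-- the exponent attached to `t a` -/
def ex (k p : ℕ) (y : ZMod (2 ^ (k + 1))) : ℕ := y.val * MM k p

include D in
theorem ex_congr (t : ZMod (2 ^ (k + 1))) (a : ℕ) :
    ex k p (t * a) ≡ t.val * MM k p * a [MOD p - 1] := by
  rw [ex, ← nM D]
  have h : (t * (a : ZMod (2 ^ (k + 1)))).val ≡ t.val * a [MOD 2 ^ (k + 1)] := by
    rw [ZMod.val_mul, ZMod.val_natCast]
    unfold Nat.ModEq
    rw [Nat.mod_mod, Nat.mul_mod_mod]
  have := Nat.ModEq.mul_right' (MM k p) h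
  rw [show t.val * MM k p * a = t.val * a * MM k p by ring]
  exact this

include D in
theorem ex_pos {y : ZMod (2 ^ (k + 1))} (hy : y ≠ 0) : 0 < ex k p y := by
  apply Nat.mul_pos _ (M_pos D)
  rw [Nat.pos_iff_ne_zero, Ne, ZMod.val_eq_zero]
  exact hy

/-- the class of `a` is non-zero -/
theorem phi_chi_pow (t : (ZMod (2 ^ (k + 1)))ˣ) {a : ℕ} (ha : (a : ZMod (2 ^ (k + 1))) ≠ 0)
    (x : ZMod p) :
    phi D t (((chi D) ^ a) x) = x ^ ex k p ((t : ZMod (2 ^ (k + 1))) * a) := by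
  have ha0 : a ≠ 0 := by rintro rfl; simp at ha
  have hta : (t : ZMod (2 ^ (k + 1))) * a ≠ 0 := by
    intro h
    apply ha
    have := congrArg (fun y => ((t⁻¹ : (ZMod (2 ^ (k + 1)))ˣ) : ZMod (2 ^ (k + 1))) * y) h
    simpa using this
  rw [MulChar.pow_apply' _ ha0]
  by_cases hx : x = 0
  · rw [hx, MulChar.map_zero, zero_pow ha0, map_zero, zero_pow (ex_pos D hta).ne']
  · have hu : ((Units.mk0 x hx : (ZMod p)ˣ) : ZMod p) = x := rfl
    rw [map_pow, ← hu, phi_chi, ← pow_mul, hu]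
    exact (pow_congr hx (ex_congr D _ a)).symm

theorem phi_jac (t : (ZMod (2 ^ (k + 1)))ˣ) {a b : ℕ} (ha : (a : ZMod (2 ^ (k + 1))) ≠ 0)
    (hb : (b : ZMod (2 ^ (k + 1))) ≠ 0) :
    phi D t (jacobiSum (chi D ^ a) (chi D ^ b)) =
      ∑ x : ZMod p, x ^ ex k p ((t : ZMod (2 ^ (k + 1))) * a) *
        (1 - x) ^ ex k p ((t : ZMod (2 ^ (k + 1))) * b) := by
  rw [jacobiSum, map_sum]
  apply Finset.sum_congr rfl
  intro x _
  rw [map_mul, phi_chi_pow D t ha, phi_chi_pow D t hb]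

end

/-! power sums -/

theorem sum_pow_eq {p : ℕ} [Fact p.Prime] {e : ℕ} (he : 0 < e) :
    ∑ x : ZMod p, x ^ e = if (p - 1) ∣ e then -1 else 0 := by
  let φ : (ZMod p)ˣ ↪ ZMod p := ⟨fun x ↦ x, Units.val_injective⟩
  have hm : univ.map φ = univ \ {0} := by
    ext x
    simp only [mem_map, mem_univ, true_and, mem_sdiff, mem_singleton]
    exact isUnit_iff_ne_zero
  have h1 : ∑ x : ZMod p, x ^ e = ∑ x : (ZMod p)ˣ, (x ^ e : ZMod p) := by
    rw [← sum_sdiff ({0} : Finset (ZMod p)).subset_univ, sum_singleton, zero_pow he.ne', add_zero,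
      ← hm, sum_map]
    rfl
  rw [h1]
  have := FiniteField.sum_pow_units (K := ZMod p) e
  rw [ZMod.card] at this
  exact this

theorem sum_expand {p : ℕ} [Fact p.Prime] (A B : ℕ) :
    ∑ x : ZMod p, x ^ A * (1 - x) ^ B =
      ∑ i ∈ range (B + 1), (-1) ^ i * (B.choose i : ZMod p) * ∑ x : ZMod p, x ^ (A + i) := by
  have h : ∀ x : ZMod p, x ^ A * (1 - x) ^ B =
      ∑ i ∈ range (B + 1), (-1) ^ i * (B.choose i : ZMod p) * x ^ (A + i) := by
    intro x
    rw [show (1 - x : ZMod p) = -x + 1 by ring, add_pow, Finset.mul_sum]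
    apply Finset.sum_congr rfl
    intro i _
    rw [neg_pow, one_pow, pow_add]
    ring
  simp_rw [h]
  rw [Finset.sum_comm]
  simp_rw [Finset.mul_sum]

theorem sum_small {p : ℕ} [Fact p.Prime] {A B : ℕ} (hA : 0 < A) (h : A + B < p - 1) :
    ∑ x : ZMod p, x ^ A * (1 - x) ^ B = 0 := by
  rw [sum_expand]
  apply Finset.sum_eq_zero
  intro i hi
  rw [mem_range] at hi
  rw [sum_pow_eq (by omega), if_neg, mul_zero]
  intro hd
  have := Nat.le_of_dvd (by omega) hd
  omega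

theorem sum_large {p : ℕ} [Fact p.Prime] {A B c : ℕ} (hA : 0 < A) (hc : A + c = p - 1)
    (hcB : c ≤ B) (hB : B < p - 1) :
    ∑ x : ZMod p, x ^ A * (1 - x) ^ B = - ((-1) ^ c * (B.choose c : ZMod p)) := by
  rw [sum_expand, Finset.sum_eq_single c]
  · rw [hc, sum_pow_eq (by omega), if_pos dvd_rfl]; ring
  · intro i hi hic
    rw [mem_range] at hi
    rw [sum_pow_eq (by omega), if_neg, mul_zero]
    intro hd
    obtain ⟨q, hq⟩ := hd
    have hq1 : q = 1 := by
      rcases Nat.lt_or_ge q 2 with h | h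
      · interval_cases q
        · omega
        · rfl
      · exfalso
        have : (p - 1) * 2 ≤ (p - 1) * q := Nat.mul_le_mul_left _ h
        omega
    rw [hq1, mul_one] at hq
    omega
  · intro h
    exact absurd (mem_range.mpr (by omega)) h

end Pool.Agent.H140.FJ
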