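import Pool.Agent.H140.FJ.Ring

/-! Kernels of the reductions of `ℤ[ζ]` at a prime `p = G^(2^k) + 1`. -/

namespace Pool.Agent.H140.FJ

open NumberField Finset Polynomial

/-- the standing assumptions -/
structure Dat (k p G : ℕ) : Prop where
  hk : 1 ≤ k
  hp : p.Prime
  hG : p = G ^ (2 ^ k) + 1
  hE : Even G

section
variable {k p G : ℕ} (D : Dat k p G)

include D

theorem g_half : ((G : ℕ) : ZMod p) ^ (2 ^ k) = -1 := by
  have h : ((p : ℕ) : ZMod p) = 0 := ZMod.natCast_self p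
  have h2 : ((G ^ (2 ^ k) + 1 : ℕ) : ZMod p) = 0 := by rw [← D.hG]; exact h
  push_cast at h2
  linear_combination h2

theorem g_full : ((G : ℕ) : ZMod p) ^ (2 ^ (k + 1)) = 1 := by
  rw [pow_succ, pow_mul, g_half D]; norm_num

theorem exists_phi (t : (ZMod (2 ^ (k + 1)))ˣ) :
    ∃ φ : O k →+* ZMod p, φ (z k) = E (G : ZMod p) (t : ZMod (2 ^ (k + 1))) := by
  apply exists_lift
  rw [E, ← pow_mul, mul_comm, pow_mul, g_half D, neg_one_pow_unit]

end

/-- reduction with `ζ ↦ G^t` -/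
noncomputable def phi {k p G : ℕ} (D : Dat k p G) (t : (ZMod (2 ^ (k + 1)))ˣ) : O k →+* ZMod p :=
  (exists_phi D t).choose

theorem phi_z {k p G : ℕ} (D : Dat k p G) (t : (ZMod (2 ^ (k + 1)))ˣ) :
    phi D t (z k) = E (G : ZMod p) (t : ZMod (2 ^ (k + 1))) := (exists_phi D t).choose_spec

/-- the prime element belonging to `t` -/
noncomputable def pr (k G : ℕ) (t : (ZMod (2 ^ (k + 1)))ˣ) : O k :=
  1 - (G : O k) * E (z k) (-((t⁻¹ : (ZMod (2 ^ (k + 1)))ˣ) : ZMod (2 ^ (k + 1))))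

theorem z_full (k : ℕ) : z k ^ (2 ^ (k + 1)) = 1 := (z_prim k).pow_eq_one

section
variable {k p G : ℕ} (D : Dat k p G)

theorem dvd_of_phi {t : (ZMod (2 ^ (k + 1)))ˣ} {x : O k} (hx : phi D t x = 0) :
    pr k G t ∣ x := by
  set η : O k := E (z k) ((t⁻¹ : (ZMod (2 ^ (k + 1)))ˣ) : ZMod (2 ^ (k + 1))) with hη
  set tv := (t : ZMod (2 ^ (k + 1))).val with htv
  have hz : z k = η ^ tv := by
    rw [hη, htv, ← E_mul (z_full k), ← Units.val_mul, inv_mul_cancel, Units.val_one,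
      E_one (z_full k)]
  have hpr : pr k G t * η = η - G := by
    have h1 := E_neg (z_full k) ((t⁻¹ : (ZMod (2 ^ (k + 1)))ˣ) : ZMod (2 ^ (k + 1)))
    rw [← hη] at h1
    rw [pr, sub_mul, mul_assoc, h1]
    ring
  have hd : pr k G t ∣ η - G := ⟨η, hpr.symm⟩
  have hη2 : η ^ (2 ^ k) = -1 := by
    rw [hη, E, ← pow_mul, mul_comm, pow_mul, z_half, neg_one_pow_unit]
  obtain ⟨f, hf⟩ := exists_poly k x
  have h1 : (η - G) ∣ x - aeval (((G : ℤ) ^ tv : ℤ) : O k) f := by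
    rw [hf]
    have h2 : z k - (((G : ℤ) ^ tv : ℤ) : O k) ∣ aeval (z k) f - aeval (((G : ℤ) ^ tv : ℤ) : O k) f := by
      rw [aeval_def, aeval_def, eval₂_eq_eval_map, eval₂_eq_eval_map]
      exact sub_dvd_eval_sub _ _ _
    refine dvd_trans ?_ h2
    rw [hz]
    push_cast
    exact sub_dvd_pow_sub_pow _ _ _
  have h3 : aeval (((G : ℤ) ^ tv : ℤ) : O k) f = ((f.eval ((G : ℤ) ^ tv) : ℤ) : O k) := by
    have := aeval_algebraMap_apply (O k) ((G : ℤ) ^ tv) f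
    simpa using this
  have h4 : ((f.eval ((G : ℤ) ^ tv) : ℤ) : ZMod p) = 0 := by
    rw [← hx, hf, ← Polynomial.coe_aeval_eq_eval]
    have e1 : phi D t (aeval (z k) f) = aeval (phi D t (z k)) f := by
      have := Polynomial.hom_eval₂ f (algebraMap ℤ (O k)) (phi D t) (z k)
      rw [aeval_def, aeval_def, this]
      congr 1
      exact RingHom.ext_int _ _
    have e2 : phi D t (z k) = (((G : ℤ) ^ tv : ℤ) : ZMod p) := by
      rw [phi_z, E]; push_cast; rfl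
    rw [e1, e2]
    have := aeval_algebraMap_apply (ZMod p) ((G : ℤ) ^ tv) f
    simpa using this.symm
  have h5 : ((p : ℕ) : ℤ) ∣ f.eval ((G : ℤ) ^ tv) := (ZMod.intCast_zmod_eq_zero_iff_dvd _ _).mp h4
  have h6 : (η - G) ∣ ((p : ℕ) : O k) := by
    have e : ((p : ℕ) : O k) = (G : O k) ^ (2 ^ k) - η ^ (2 ^ k) := by
      rw [hη2, D.hG]; push_cast; ring
    rw [e]
    have := sub_dvd_pow_sub_pow η (G : O k) (2 ^ k)
    rw [← neg_sub (η ^ (2 ^ k))]
    exact (dvd_neg).mpr this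
  have h7 : (η - G) ∣ ((f.eval ((G : ℤ) ^ tv) : ℤ) : O k) := by
    obtain ⟨c, hc⟩ := h5
    rw [hc]
    push_cast
    exact Dvd.dvd.mul_right h6 _
  rw [h3] at h1
  have h8 := dvd_add h1 h7
  rw [sub_add_cancel] at h8
  exact dvd_trans hd h8

theorem sub_dvd_two {k : ℕ} {a b : ZMod (2 ^ (k + 1))} (h : a ≠ b) :
    E (z k) a - E (z k) b ∣ 2 := by
  have hc : a - b ≠ 0 := sub_ne_zero.mpr h
  have e1 : E (z k) a - E (z k) b = E (z k) b * (E (z k) (a - b) - 1) := by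
    rw [mul_sub, ← E_add (z_full k)]; simp
  rw [e1]
  have hu := E_isUnit (z_full k) b
  rw [hu.mul_left_dvd]
  have hv : (a - b).val ≠ 0 := by rwa [Ne, ZMod.val_eq_zero]
  obtain ⟨r, m, hm, hr⟩ := Nat.exists_eq_two_pow_mul_odd hv
  have hlt := ZMod.val_lt (a - b)
  have hrk : r ≤ k := by
    by_contra hcon
    have : 2 ^ (k + 1) ≤ 2 ^ r := Nat.pow_le_pow_right (by norm_num) (by omega)
    have hm1 : 1 ≤ m := hm.pos
    rw [hr] at hlt
    nlinarith
  have e2 : E (z k) (a - b) ^ (2 ^ (k - r)) = -1 := by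
    rw [E, ← pow_mul, hr, show 2 ^ r * m * 2 ^ (k - r) = 2 ^ k * m by
      rw [mul_right_comm, ← pow_add, Nat.add_sub_cancel' hrk], pow_mul, z_half, hm.neg_one_pow]
  have h3 : E (z k) (a - b) - 1 ∣ E (z k) (a - b) ^ (2 ^ (k - r)) - 1 ^ (2 ^ (k - r)) :=
    sub_dvd_pow_sub_pow _ _ _
  rw [e2, one_pow, show (-1 - 1 : O k) = -2 by norm_num] at h3
  exact (dvd_neg).mp h3

theorem pr_dvd_p (t : (ZMod (2 ^ (k + 1)))ˣ) (D : Dat k p G) : pr k G t ∣ (p : O k) := by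
  apply dvd_of_phi D
  rw [map_natCast, ZMod.natCast_self]

theorem pr_coprime (D : Dat k p G) {t t' : (ZMod (2 ^ (k + 1)))ˣ} (h : t ≠ t') :
    IsCoprime (pr k G t) (pr k G t') := by
  obtain ⟨q, hq⟩ := pr_dvd_p t D
  obtain ⟨G', hG'⟩ := D.hE
  have hp : (p : O k) = 1 + 2 * G * (G' * G ^ (2 ^ k - 2)) := by
    have h2 : 2 ≤ 2 ^ k := by
      calc 2 = 2 ^ 1 := rfl
        _ ≤ 2 ^ k := Nat.pow_le_pow_right (by norm_num) D.hk
    have e : G ^ (2 ^ k) = 2 * G * (G' * G ^ (2 ^ k - 2)) := by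
      have : G ^ (2 ^ k) = G * G * G ^ (2 ^ k - 2) := by
        rw [← pow_two, ← pow_add, Nat.add_sub_cancel' h2]
      rw [this]
      nth_rewrite 2 [hG']
      ring
    conv_lhs => rw [D.hG, e]
    push_cast
    ring
  have h1 : IsCoprime (pr k G t) (2 * G) :=
    ⟨q, -(G' * G ^ (2 ^ k - 2)), by linear_combination hp - hq⟩
  have hne : -((t⁻¹ : (ZMod (2 ^ (k + 1)))ˣ) : ZMod (2 ^ (k + 1)))
      ≠ -((t'⁻¹ : (ZMod (2 ^ (k + 1)))ˣ) : ZMod (2 ^ (k + 1))) := by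
    intro hcon
    exact h (inv_injective (Units.ext (neg_injective hcon)))
  have h2 : pr k G t' - pr k G t ∣ 2 * G := by
    obtain ⟨c, hc⟩ := sub_dvd_two hne
    exact ⟨c, by rw [pr, pr]; linear_combination (G : O k) * hc⟩
  have h3 : IsCoprime (pr k G t) (pr k G t' - pr k G t) := h1.of_isCoprime_of_dvd_right h2
  obtain ⟨u, v, huv⟩ := h3
  exact ⟨u - v, v, by linear_combination huv⟩

theorem prod_dvd_of_phi (D : Dat k p G) (T : Finset (ZMod (2 ^ (k + 1)))ˣ) {x : O k}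
    (h : ∀ t ∈ T, phi D t x = 0) : ∏ t ∈ T, pr k G t ∣ x := by
  apply Finset.prod_dvd_of_coprime
  · intro t _ t' _ htt'
    exact pr_coprime D htt'
  · intro t ht
    exact dvd_of_phi D (h t ht)

theorem prod_pr_univ (D : Dat k p G) : ∏ t : (ZMod (2 ^ (k + 1)))ˣ, pr k G t = (p : O k) := by
  have h := prod_units_E k (z k) (z_half k) (G : O k)
  have e : ∏ t : (ZMod (2 ^ (k + 1)))ˣ, pr k G t
      = ∏ t : (ZMod (2 ^ (k + 1)))ˣ, (1 - (G : O k) * E (z k) (t : ZMod (2 ^ (k + 1)))) := by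
    refine Fintype.prod_equiv ((Equiv.inv _).trans (Equiv.neg _)) _ _ ?_
    intro t
    simp [pr]
  rw [e, h, D.hG]
  push_cast
  ring

end

end Pool.Agent.H140.FJ
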