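import Pool.Agent.H140.FJ.Jac

/-! Evaluation of the Jacobi sums. -/

namespace Pool.Agent.H140.FJ

open NumberField Finset Polynomial

/-- the set of `t` with `⟨ta⟩ + ⟨tb⟩ < n` -/
def TT (k : ℕ) (a b : ZMod (2 ^ (k + 1))) : Finset (ZMod (2 ^ (k + 1)))ˣ :=
  univ.filter fun t => ((t : ZMod (2 ^ (k + 1))) * a).val + ((t : ZMod (2 ^ (k + 1))) * b).val
    < 2 ^ (k + 1)

theorem mem_TT {k : ℕ} {a b : ZMod (2 ^ (k + 1))} {t : (ZMod (2 ^ (k + 1)))ˣ} :
    t ∈ TT k a b ↔ ((t : ZMod (2 ^ (k + 1))) * a).val + ((t : ZMod (2 ^ (k + 1))) * b).val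
      < 2 ^ (k + 1) := by
  simp [TT]

theorem mul_unit_ne {k : ℕ} (t : (ZMod (2 ^ (k + 1)))ˣ) {a : ZMod (2 ^ (k + 1))} (ha : a ≠ 0) :
    (t : ZMod (2 ^ (k + 1))) * a ≠ 0 := by
  intro h
  apply ha
  have := congrArg (fun y => ((t⁻¹ : (ZMod (2 ^ (k + 1)))ˣ) : ZMod (2 ^ (k + 1))) * y) h
  simpa using this

theorem val_neg_add {k : ℕ} {y : ZMod (2 ^ (k + 1))} (hy : y ≠ 0) :
    (-y).val + y.val = 2 ^ (k + 1) := by
  have : NeZero y := ⟨hy⟩
  have h := ZMod.val_neg_of_ne_zero y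
  have h2 := ZMod.val_lt y
  omega

theorem neg_mem_TT {k : ℕ} {a b : ZMod (2 ^ (k + 1))} (ha : a ≠ 0) (hb : b ≠ 0)
    (hab : a + b ≠ 0) (t : (ZMod (2 ^ (k + 1)))ˣ) : -t ∈ TT k a b ↔ t ∉ TT k a b := by
  rw [mem_TT, mem_TT]
  have e1 := val_neg_add (mul_unit_ne t ha)
  have e2 := val_neg_add (mul_unit_ne t hb)
  have e3 : ((t : ZMod (2 ^ (k + 1))) * a).val + ((t : ZMod (2 ^ (k + 1))) * b).val ≠ 2 ^ (k + 1) := by
    intro h
    apply mul_unit_ne t hab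
    have : ((((t : ZMod (2 ^ (k + 1))) * a).val + ((t : ZMod (2 ^ (k + 1))) * b).val : ℕ) :
        ZMod (2 ^ (k + 1))) = ((2 ^ (k + 1) : ℕ) : ZMod (2 ^ (k + 1))) := by rw [h]
    rw [Nat.cast_add, ZMod.natCast_zmod_val, ZMod.natCast_zmod_val, ZMod.natCast_self] at this
    rw [mul_add]
    exact this
  rw [Units.val_neg, neg_mul, neg_mul]
  omega

section conj

theorem conj_E {k : ℕ} (σ : O k →+* ℂ) (y : ZMod (2 ^ (k + 1))) :
    (starRingEnd ℂ) (σ (E (z k) y)) = σ (E (z k) (-y)) := by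
  have h1 : E (z k) y ^ (2 ^ (k + 1)) = 1 := by rw [E, ← pow_mul, mul_comm, pow_mul, z_full, one_pow]
  have h2 : ‖σ (E (z k) y)‖ = 1 := Complex.norm_eq_one_of_pow_eq_one
    (by rw [← map_pow, h1, map_one]) (by positivity : 2 ^ (k + 1) ≠ 0)
  have h3 : (starRingEnd ℂ) (σ (E (z k) y)) * σ (E (z k) y) = 1 := by
    rw [Complex.conj_mul', h2]; norm_num
  have h4 : σ (E (z k) (-y)) * σ (E (z k) y) = 1 := by
    rw [← map_mul, E_neg (z_full k), map_one]
  have h5 : σ (E (z k) y) ≠ 0 := by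
    intro h
    rw [h, norm_zero] at h2
    norm_num at h2
  exact mul_right_cancel₀ h5 (h3.trans h4.symm)

theorem conj_pr {k G : ℕ} (σ : O k →+* ℂ) (t : (ZMod (2 ^ (k + 1)))ˣ) :
    (starRingEnd ℂ) (σ (pr k G t)) = σ (pr k G (-t)) := by
  simp only [pr, map_sub, map_mul, map_one, map_natCast, conj_E]
  simp

theorem norm_pr {k p G : ℕ} (D : Dat k p G) (σ : O k →+* ℂ) {a b : ZMod (2 ^ (k + 1))} (ha : a ≠ 0)
    (hb : b ≠ 0) (hab : a + b ≠ 0) :
    (starRingEnd ℂ) (σ (∏ t ∈ TT k a b, pr k G t)) * σ (∏ t ∈ TT k a b, pr k G t) = p := by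
  have h1 : (starRingEnd ℂ) (σ (∏ t ∈ TT k a b, pr k G t))
      = σ (∏ t ∈ (TT k a b)ᶜ, pr k G t) := by
    rw [map_prod, map_prod, map_prod]
    refine Finset.prod_bij' (fun t _ => -t) (fun t _ => -t) ?_ ?_ ?_ ?_ ?_
    · intro t ht
      rw [Finset.mem_compl, neg_mem_TT ha hb hab]
      exact not_not.mpr ht
    · intro t ht
      rw [neg_mem_TT ha hb hab]
      exact Finset.mem_compl.mp ht
    · intro t _; exact neg_neg t
    · intro t _; exact neg_neg t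
    · intro t _; exact conj_pr σ t
  rw [h1, ← map_mul, mul_comm, Finset.prod_mul_prod_compl, prod_pr_univ D, map_natCast]

end conj

section jac
variable {k p G : ℕ} [Fact p.Prime] (D : Dat k p G)

theorem chi_pow_ne (a : ℕ) (ha : (a : ZMod (2 ^ (k + 1))) ≠ 0) : chi D ^ a ≠ 1 := by
  intro h
  obtain ⟨γ, hγ⟩ := IsCyclic.exists_generator (α := (ZMod p)ˣ)
  have h1 := phi_chi_pow D 1 ha (γ : ZMod p)
  rw [h, MulChar.one_apply_coe, map_one, Units.val_one, one_mul] at h1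
  have h2 : γ ^ ex k p (a : ZMod (2 ^ (k + 1))) = 1 := Units.ext (by
    rw [Units.val_pow_eq_pow_val, Units.val_one]; exact h1.symm)
  have h3 : orderOf γ = p - 1 := by
    rw [orderOf_eq_card_of_forall_mem_zpowers hγ, Nat.card_eq_fintype_card, ZMod.card_units]
  have h4 := orderOf_dvd_of_pow_eq_one h2
  rw [h3] at h4
  have h5 := Nat.le_of_dvd (ex_pos D ha) h4
  rw [← nM D, ex] at h5
  have h6 := Nat.le_of_mul_le_mul_right h5 (M_pos D)
  have h7 := ZMod.val_lt (a : ZMod (2 ^ (k + 1)))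
  omega

theorem norm_jac (σ : O k →+* ℂ) (hσ : Function.Injective σ) {a b : ℕ}
    (ha : (a : ZMod (2 ^ (k + 1))) ≠ 0) (hb : (b : ZMod (2 ^ (k + 1))) ≠ 0)
    (hab : (a : ZMod (2 ^ (k + 1))) + b ≠ 0) :
    (starRingEnd ℂ) (σ (jacobiSum (chi D ^ a) (chi D ^ b))) *
      σ (jacobiSum (chi D ^ a) (chi D ^ b)) = p := by
  set χ' := (chi D ^ a).ringHomComp σ with hχ'
  set φ' := (chi D ^ b).ringHomComp σ with hφ'
  have h0 : σ (jacobiSum (chi D ^ a) (chi D ^ b)) = jacobiSum χ' φ' := by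
    rw [hχ', hφ', jacobiSum_ringHomComp]
  have h1 : χ' ≠ 1 := (MulChar.ringHomComp_ne_one_iff hσ).mpr (chi_pow_ne D a ha)
  have h2 : φ' ≠ 1 := (MulChar.ringHomComp_ne_one_iff hσ).mpr (chi_pow_ne D b hb)
  have h3 : χ' * φ' ≠ 1 := by
    rw [hχ', hφ', ← MulChar.ringHomComp_mul, ← pow_add]
    exact (MulChar.ringHomComp_ne_one_iff hσ).mpr (chi_pow_ne D (a + b) (by push_cast; exact hab))
  have h4 : ringChar ℂ ≠ ringChar (ZMod p) := by
    rw [ZMod.ringChar_zmod_n, ringChar.eq_zero]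
    exact (Fact.out : p.Prime).ne_zero.symm
  have h5 := jacobiSum_mul_jacobiSum_inv h4 h1 h2 h3
  have h6 : (starRingEnd ℂ) (jacobiSum χ' φ') = jacobiSum χ'⁻¹ φ'⁻¹ := by
    rw [jacobiSum, jacobiSum, map_sum]
    apply Finset.sum_congr rfl
    intro x _
    rw [map_mul]
    congr 1
    · exact MulChar.star_apply' χ' x
    · exact MulChar.star_apply' φ' (1 - x)
  rw [h0, h6, mul_comm, h5, ZMod.card]

theorem unit_of_norm {k : ℕ} {u : O k} (h : ∀ σ : O k →+* ℂ, Function.Injective σ → ‖σ u‖ = 1) :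
    ∃ c, u = z k ^ c := by
  have h1 : ∀ φ : K k →+* ℂ, ‖φ (u : K k)‖ = 1 := by
    intro φ
    exact h (φ.comp (algebraMap (O k) (K k))) (φ.injective.comp RingOfIntegers.coe_injective)
  obtain ⟨N, hN, hu⟩ := Embeddings.pow_eq_one_of_norm_eq_one (K k) ℂ u.isIntegral_coe h1
  have hu' : u ^ N = 1 := by
    apply RingOfIntegers.coe_injective
    rw [map_pow, map_one]
    exact hu
  have hunit : IsUnit u := IsUnit.of_pow_eq_one hu' hN.ne'
  have hmem : hunit.unit ∈ Units.torsion (K k) := by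
    rw [Units.torsion, CommGroup.mem_torsion]
    exact isOfFinOrder_iff_pow_eq_one.mpr ⟨N, hN, Units.ext (by
      rw [Units.val_pow_eq_pow_val, Units.val_one, IsUnit.unit_spec]; exact hu')⟩
  have hord : Units.torsionOrder (K k) = 2 ^ (k + 1) := by
    have h := IsCyclotomicExtension.Rat.torsionOrder_eq (n := 2 ^ (k + 1)) (K := K k)
    rw [h, if_pos]
    rw [pow_succ]
    exact even_two.mul_left _
  have hpow : hunit.unit ^ (2 ^ (k + 1)) = 1 := by
    rw [← Units.rootsOfUnity_eq_torsion, hord, mem_rootsOfUnity] at hmem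
    exact hmem
  have hpow' : u ^ (2 ^ (k + 1)) = 1 := by
    have := congrArg Units.val hpow
    rwa [Units.val_pow_eq_pow_val, Units.val_one, IsUnit.unit_spec] at this
  obtain ⟨i, -, hi⟩ := (z_prim k).eq_pow_of_pow_eq_one hpow'
  exact ⟨i, hi.symm⟩

/-- **the Jacobi sums up to a root of unity** -/
theorem jac_eval {a b : ℕ} (ha : (a : ZMod (2 ^ (k + 1))) ≠ 0) (hb : (b : ZMod (2 ^ (k + 1))) ≠ 0)
    (hab : (a : ZMod (2 ^ (k + 1))) + b ≠ 0) :
    ∃ c, jacobiSum (chi D ^ a) (chi D ^ b) = z k ^ c * ∏ t ∈ TT k a b, pr k G t := by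
  have hdvd : ∏ t ∈ TT k a b, pr k G t ∣ jacobiSum (chi D ^ a) (chi D ^ b) := by
    apply prod_dvd_of_phi D
    intro t ht
    rw [mem_TT] at ht
    rw [phi_jac D t ha hb]
    apply sum_small (ex_pos D (mul_unit_ne t ha))
    rw [ex, ex, ← add_mul, ← nM D]
    exact Nat.mul_lt_mul_of_pos_right ht (M_pos D)
  obtain ⟨u, hu⟩ := hdvd
  have hp0 : (p : ℂ) ≠ 0 := by exact_mod_cast D.hp.ne_zero
  have hu1 : ∀ σ : O k →+* ℂ, Function.Injective σ → ‖σ u‖ = 1 := by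
    intro σ hσ
    have h1 := norm_jac D σ hσ ha hb hab
    have h2 := norm_pr D σ ha hb hab
    rw [hu, map_mul, map_mul] at h1
    have h3 : (starRingEnd ℂ) (σ u) * σ u = 1 := by
      apply mul_left_cancel₀ hp0
      rw [mul_one]
      nth_rewrite 1 [← h2]
      rw [← h1]
      ring
    rw [Complex.conj_mul'] at h3
    have h4 : ‖σ u‖ ^ 2 = 1 := by exact_mod_cast h3
    nlinarith [norm_nonneg (σ u)]
  obtain ⟨c, hc⟩ := unit_of_norm hu1
  exact ⟨c, by rw [hu, hc, mul_comm]⟩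

end jac

end Pool.Agent.H140.FJ
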