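import Pool.Agent.H140.FJ.Exact

/-! Reduction of the Jacobi sums modulo `p`: binomial coefficients. -/

namespace Pool.Agent.H140.FJ

open NumberField Finset Polynomial

/-- the product on the side of the residue field -/
def Pd {R : Type*} [CommRing R] (k : ℕ) (y : R) (a b : ZMod (2 ^ (k + 1))) : R :=
  ∏ t ∈ TT k a b, (1 - y ^ (1 + ((t⁻¹ : (ZMod (2 ^ (k + 1)))ˣ) : ZMod (2 ^ (k + 1))).val))

section
variable {k p G : ℕ} [Fact p.Prime] (D : Dat k p G)

theorem phi_E_neg (y : ZMod (2 ^ (k + 1))) :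
    phi D (-1) (E (z k) y) = E (G : ZMod p) (-y) := by
  rw [map_E, phi_z, Units.val_neg, Units.val_one, E, ← E_mul (g_full D), neg_one_mul]

theorem phi_pr_neg (t : (ZMod (2 ^ (k + 1)))ˣ) :
    phi D (-1) (pr k G t) =
      1 - (G : ZMod p) ^ (1 + ((t⁻¹ : (ZMod (2 ^ (k + 1)))ˣ) : ZMod (2 ^ (k + 1))).val) := by
  rw [pr, map_sub, map_one, map_mul, map_natCast, phi_E_neg, neg_neg, E]
  congr 1
  have := pow_add (G : ZMod p) 1 ((t⁻¹ : (ZMod (2 ^ (k + 1)))ˣ) : ZMod (2 ^ (k + 1))).val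
  rw [this, pow_one]

theorem phi_prod_neg (a b : ZMod (2 ^ (k + 1))) :
    phi D (-1) (∏ t ∈ TT k a b, pr k G t) = Pd k (G : ZMod p) a b := by
  rw [map_prod, Pd]
  exact Finset.prod_congr rfl fun t _ => phi_pr_neg D t

theorem natCast_ne {a : ℕ} (h1 : 1 ≤ a) (h2 : a < 2 ^ (k + 1)) :
    (a : ZMod (2 ^ (k + 1))) ≠ 0 := by
  rw [Ne, ZMod.natCast_eq_zero_iff]
  intro h
  have := Nat.le_of_dvd (by omega) h
  omega

theorem ex_neg {a : ℕ} (h1 : 1 ≤ a) (h2 : a < 2 ^ (k + 1)) :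
    ex k p (((-1 : (ZMod (2 ^ (k + 1)))ˣ) : ZMod (2 ^ (k + 1))) * a) = (2 ^ (k + 1) - a) * MM k p := by
  rw [ex, Units.val_neg, Units.val_one, neg_one_mul]
  have h3 := val_neg_add (natCast_ne h1 h2)
  rw [ZMod.val_natCast_of_lt h2] at h3
  congr 1
  omega

theorem phi_jac_neg {a b : ℕ} (ha : 1 ≤ a) (hb : 1 ≤ b) (hab : a + b ≤ 2 ^ (k + 1)) :
    phi D (-1) (jacobiSum (chi D ^ a) (chi D ^ b)) =
      - ((-1) ^ (a * MM k p) * (((2 ^ (k + 1) - b) * MM k p).choose (a * MM k p) : ZMod p)) := by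
  have hM := M_pos D
  rw [phi_jac D (-1) (natCast_ne ha (by omega)) (natCast_ne hb (by omega)),
    ex_neg ha (by omega), ex_neg hb (by omega)]
  apply sum_large
  · apply Nat.mul_pos _ hM
    omega
  · rw [← add_mul, Nat.sub_add_cancel (by omega), nM D]
  · exact Nat.mul_le_mul_right _ (by omega)
  · rw [← nM D]
    exact Nat.mul_lt_mul_of_pos_right (by omega) hM

end

/-- reflection of binomial coefficients modulo `p` -/
theorem choose_reflect {p : ℕ} [Fact p.Prime] {c d : ℕ} (h : c + d < p) :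
    ((p - 1 - c).choose d : ZMod p) = (-1) ^ d * ((c + d).choose d : ZMod p) := by
  have hd : (d.factorial : ZMod p) ≠ 0 := by
    rw [Ne, ZMod.natCast_eq_zero_iff]
    intro h1
    have := (Nat.Prime.dvd_factorial (Fact.out : p.Prime)).mp h1
    omega
  apply mul_left_cancel₀ hd
  rw [← Nat.cast_mul, ← Nat.descFactorial_eq_factorial_mul_choose, mul_left_comm, ← Nat.cast_mul,
    ← Nat.ascFactorial_eq_factorial_mul_choose, Nat.descFactorial_eq_prod_range,
    Nat.ascFactorial_eq_prod_range, Nat.cast_prod, Nat.cast_prod]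
  have : ∀ i ∈ range d, (((p - 1 - c - i : ℕ)) : ZMod p) = (-1) * ((c + 1 + i : ℕ) : ZMod p) := by
    intro i hi
    rw [mem_range] at hi
    have h2 : (p - 1 - c - i) + (c + 1 + i) = p := by omega
    have h3 : (((p - 1 - c - i) + (c + 1 + i) : ℕ) : ZMod p) = 0 := by
      rw [h2, ZMod.natCast_self]
    rw [Nat.cast_add] at h3
    linear_combination h3
  rw [Finset.prod_congr rfl this, Finset.prod_mul_distrib, Finset.prod_const, card_range]

/-- binomial coefficients `((p-1)/2 choose i)` and central binomial coefficients -/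
theorem central_half {p : ℕ} [Fact p.Prime] {h : ℕ} (hp : p = 2 * h + 1) (i : ℕ) (hi : i ≤ h) :
    (Nat.centralBinom i : ZMod p) = (-4) ^ i * (h.choose i : ZMod p) := by
  induction i with
  | zero => simp
  | succ i ih =>
    have ih' := ih (by omega)
    have hne : ((i + 1 : ℕ) : ZMod p) ≠ 0 := by
      rw [Ne, ZMod.natCast_eq_zero_iff]
      intro h1
      have := Nat.le_of_dvd (by omega) h1
      omega
    apply mul_left_cancel₀ hne
    have e1 : ((i + 1 : ℕ) : ZMod p) * (Nat.centralBinom (i + 1) : ZMod p)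
        = 2 * (2 * i + 1) * (Nat.centralBinom i : ZMod p) := by
      exact_mod_cast congrArg (Nat.cast (R := ZMod p)) (Nat.succ_mul_centralBinom_succ i)
    have e2 : (h.choose (i + 1) : ZMod p) * ((i + 1 : ℕ) : ZMod p)
        = (h.choose i : ZMod p) * ((h : ZMod p) - i) := by
      have := congrArg (Nat.cast (R := ZMod p)) (Nat.choose_succ_right_eq h i)
      rw [Nat.cast_mul, Nat.cast_mul, Nat.cast_sub (by omega)] at this
      exact this
    have e3 : 2 * (h : ZMod p) + 1 = 0 := by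
      have : ((2 * h + 1 : ℕ) : ZMod p) = 0 := by rw [← hp, ZMod.natCast_self]
      push_cast at this
      exact this
    rw [e1, ih', pow_succ]
    linear_combination (-(-4 : ZMod p) ^ i * (-4)) * e2
      + (2 : ZMod p) * (-4) ^ i * (h.choose i : ZMod p) * e3

section
variable {k p G : ℕ} [Fact p.Prime] (D : Dat k p G)

include D in
/-- all binomial coefficients, up to a power of `G` -/
theorem choose_eval {a b : ℕ} (ha : 1 ≤ a) (hb : 1 ≤ b) (hab : a + b < 2 ^ (k + 1)) :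
    ∃ c, (((a + b) * MM k p).choose (a * MM k p) : ZMod p) = (G : ZMod p) ^ c *
      Pd k (G : ZMod p) (a : ZMod (2 ^ (k + 1))) (b : ZMod (2 ^ (k + 1))) := by
  have hM := M_pos D
  obtain ⟨c, hc⟩ := jac_eval D (natCast_ne ha (by omega)) (natCast_ne hb (by omega))
    (by rw [← Nat.cast_add]; exact natCast_ne (by omega) hab)
  have h1 := phi_jac_neg D ha hb hab.le
  rw [hc, map_mul, map_pow, phi_prod_neg, phi_z, Units.val_neg, Units.val_one] at h1
  have h2 : ((2 ^ (k + 1) - b) * MM k p) = p - 1 - b * MM k p := by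
    rw [Nat.sub_mul, nM D]
  have h3 : b * MM k p + a * MM k p < p := by
    rw [← add_mul]
    have : (b + a) * MM k p < 2 ^ (k + 1) * MM k p := Nat.mul_lt_mul_of_pos_right (by omega) hM
    rw [nM D] at this
    omega
  rw [h2, choose_reflect h3, ← mul_assoc, ← pow_add, ← two_mul, pow_mul, neg_one_sq, one_pow,
    one_mul, ← add_mul, add_comm b a] at h1
  refine ⟨2 ^ k + (-1 : ZMod (2 ^ (k + 1))).val * c, ?_⟩
  rw [pow_add, g_half D, pow_mul]
  have h4 : (((a + b) * MM k p).choose (a * MM k p) : ZMod p) =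
    -(E (G : ZMod p) (-1 : ZMod (2 ^ (k + 1))) ^ c * Pd k (G : ZMod p) (a : ZMod (2 ^ (k + 1)))
      (b : ZMod (2 ^ (k + 1)))) := by rw [h1, neg_neg]
  rw [h4, E]
  ring

theorem half_ne : ((2 ^ k : ℕ) : ZMod (2 ^ (k + 1))) ≠ 0 :=
  natCast_ne Nat.one_le_two_pow (by rw [pow_succ]; have := Nat.one_le_two_pow (n := k); omega)

theorem TT_half {k : ℕ} (hk : 1 ≤ k) : TT k ((1 : ℕ) : ZMod (2 ^ (k + 1))) ((2 ^ k : ℕ) : ZMod (2 ^ (k + 1)))
    = TT k ((1 : ℕ) : ZMod (2 ^ (k + 1))) ((1 : ℕ) : ZMod (2 ^ (k + 1))) := by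
  ext t
  rw [mem_TT, mem_TT]
  have h1 := unit_val_odd t
  have h2 : ((t : ZMod (2 ^ (k + 1))) * ((2 ^ k : ℕ) : ZMod (2 ^ (k + 1)))).val = 2 ^ k := by
    rw [ZMod.val_mul, ZMod.val_natCast_of_lt (by rw [pow_succ]; have := Nat.one_le_two_pow (n := k); omega)]
    obtain ⟨q, hq⟩ : ∃ q, (t : ZMod (2 ^ (k + 1))).val = 2 * q + 1 := ⟨_, (Nat.div_add_mod _ 2).symm.trans (by rw [h1])⟩
    rw [hq, show (2 * q + 1) * 2 ^ k = 2 ^ k + 2 ^ (k + 1) * q by ring, Nat.add_mul_mod_self_left,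
      Nat.mod_eq_of_lt]
    rw [pow_succ]; have := Nat.one_le_two_pow (n := k); omega
  rw [h2, Nat.cast_one, mul_one]
  have : 2 ^ (k + 1) = 2 * 2 ^ k := by ring
  have h3 : (2 : ℕ) ^ k = 2 * 2 ^ (k - 1) := by
    obtain ⟨k', rfl⟩ : ∃ k', k = k' + 1 := ⟨k - 1, by omega⟩
    rw [Nat.add_sub_cancel]; ring
  omega

include D in
theorem half_choose (h4 : 2 ≤ k ∨ 4 ∣ G) (hev : Even (MM k p)) :
    (((p - 1) / 2).choose (MM k p) : ZMod p) =
      Pd k (G : ZMod p) ((1 : ℕ) : ZMod (2 ^ (k + 1))) ((1 : ℕ) : ZMod (2 ^ (k + 1))) := by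
  have hk := D.hk
  have h2k : 2 ≤ 2 ^ k := by
    calc 2 = 2 ^ 1 := rfl
      _ ≤ 2 ^ k := Nat.pow_le_pow_right (by norm_num) hk
  have hn : 2 ^ (k + 1) = 2 * 2 ^ k := by ring
  have h0 : ((1 : ℕ) : ZMod (2 ^ (k + 1))) + ((2 ^ k : ℕ) : ZMod (2 ^ (k + 1))) ≠ 0 := by
    rw [← Nat.cast_add]
    exact natCast_ne (by omega) (by omega)
  have h1 := jac_exact D (natCast_ne (le_refl 1) (by omega)) half_ne h0 h4
  have h2 := phi_jac_neg D (le_refl 1) Nat.one_le_two_pow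
    (show 1 + 2 ^ k ≤ 2 ^ (k + 1) by omega)
  rw [h1, map_neg, phi_prod_neg, one_mul, hev.neg_one_pow, one_mul] at h2
  have h3 : (2 ^ (k + 1) - 2 ^ k) * MM k p = (p - 1) / 2 := by
    have h5 := nM D
    rw [← h5, hn, show 2 * 2 ^ k - 2 ^ k = 2 ^ k by omega, mul_assoc, Nat.mul_div_cancel_left _ (by norm_num)]
  rw [h3] at h2
  rw [neg_injective h2.symm, Pd, Pd, TT_half hk]

end

end Pool.Agent.H140.FJ
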