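import Mathlib

/-! Arithmetic of `ℤ[ζ]`, `ζ` of order `2^(k+1)`, at a prime `p = G^(2^k) + 1`. -/

namespace Pool.Agent.H140.FJ

open NumberField Finset Polynomial

/-- the cyclotomic field of level `2^(k+1)` -/
abbrev K (k : ℕ) := CyclotomicField (2 ^ (k + 1)) ℚ

/-- its ring of integers -/
abbrev O (k : ℕ) := 𝓞 (K k)

instance instNZ (k : ℕ) : NeZero (((2 ^ (k + 1) : ℕ) : ℚ)) := ⟨by positivity⟩

instance instCyc (k : ℕ) : IsCyclotomicExtension {2 ^ (k + 1)} ℚ (K k) :=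
  CyclotomicField.isCyclotomicExtension _ _

/-- the primitive root of unity in the ring of integers -/
noncomputable def z (k : ℕ) : O k :=
  (IsCyclotomicExtension.zeta_spec (2 ^ (k + 1)) ℚ (K k)).toInteger

theorem z_prim (k : ℕ) : IsPrimitiveRoot (z k) (2 ^ (k + 1)) :=
  (IsCyclotomicExtension.zeta_spec (2 ^ (k + 1)) ℚ (K k)).toInteger_isPrimitiveRoot

theorem pow_half_of_prim {R : Type*} [CommRing R] [IsDomain R] {k : ℕ} {y : R}
    (h : IsPrimitiveRoot y (2 ^ (k + 1))) : y ^ (2 ^ k) = -1 := by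
  have h2 : IsPrimitiveRoot (y ^ (2 ^ k)) 2 := by
    refine h.pow (by positivity) ?_
    rw [pow_succ]
  exact h2.eq_neg_one_of_two_right

theorem z_half (k : ℕ) : z k ^ (2 ^ k) = -1 := pow_half_of_prim (z_prim k)

theorem cyclo_eq (k : ℕ) : cyclotomic (2 ^ (k + 1)) ℤ = X ^ (2 ^ k) + 1 := by
  rw [cyclotomic_prime_pow_eq_geom_sum Nat.prime_two]
  simp [Finset.sum_range_succ, add_comm]

/-- ring homomorphisms out of `ℤ[ζ]` -/
theorem exists_lift (k : ℕ) {S : Type*} [CommRing S] (y : S) (hy : y ^ (2 ^ k) = -1) :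
    ∃ φ : O k →+* S, φ (z k) = y := by
  let pb := (IsCyclotomicExtension.zeta_spec (2 ^ (k + 1)) ℚ (K k)).integralPowerBasis
  have hgen : pb.gen = z k := IsPrimitiveRoot.integralPowerBasis_gen _
  have hmin : minpoly ℤ pb.gen = cyclotomic (2 ^ (k + 1)) ℤ := by
    rw [hgen]
    have h1 := cyclotomic_eq_minpoly (IsCyclotomicExtension.zeta_spec (2 ^ (k + 1)) ℚ (K k))
      (by positivity : 0 < 2 ^ (k + 1))
    rw [h1, ← minpoly.algebraMap_eq (RingOfIntegers.coe_injective) (z k)]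
    rfl
  have ha : aeval y (minpoly ℤ pb.gen) = 0 := by
    rw [hmin, cyclo_eq]
    simp [hy]
  refine ⟨(pb.lift y ha : O k →ₐ[ℤ] S), ?_⟩
  have := pb.lift_gen y ha
  rw [hgen] at this
  exact this

theorem exists_poly (k : ℕ) (x : O k) : ∃ f : ℤ[X], x = aeval (z k) f := by
  let pb := (IsCyclotomicExtension.zeta_spec (2 ^ (k + 1)) ℚ (K k)).integralPowerBasis
  have hgen : pb.gen = z k := IsPrimitiveRoot.integralPowerBasis_gen _
  obtain ⟨f, hf⟩ := pb.exists_eq_aeval' x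
  exact ⟨f, by rw [hf, hgen]⟩

/-! exponents in `ZMod n` -/

/-- `y^x` for `x` a class modulo `n` -/
def E {R : Type*} [CommRing R] {n : ℕ} (y : R) (x : ZMod n) : R := y ^ x.val

section E
variable {R : Type*} [CommRing R] {n : ℕ} [NeZero n] {y : R}

theorem pow_mod_of_pow_eq_one (h : y ^ n = 1) (a : ℕ) : y ^ (a % n) = y ^ a := by
  conv_rhs => rw [← Nat.div_add_mod a n, pow_add, pow_mul, h, one_pow, one_mul]

theorem E_natCast (h : y ^ n = 1) (a : ℕ) : E y (a : ZMod n) = y ^ a := by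
  rw [E, ZMod.val_natCast, pow_mod_of_pow_eq_one h]

theorem E_add (h : y ^ n = 1) (a b : ZMod n) : E y (a + b) = E y a * E y b := by
  rw [E, ZMod.val_add, pow_mod_of_pow_eq_one h, pow_add]; rfl

theorem E_mul (h : y ^ n = 1) (a b : ZMod n) : E y (a * b) = E y a ^ b.val := by
  rw [E, ZMod.val_mul, pow_mod_of_pow_eq_one h, pow_mul]; rfl

theorem E_zero : E y (0 : ZMod n) = 1 := by simp [E]

theorem E_neg (h : y ^ n = 1) (a : ZMod n) : E y (-a) * E y a = 1 := by
  rw [← E_add h, neg_add_cancel, E_zero]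

theorem E_one (h : y ^ n = 1) : E y (1 : ZMod n) = y := by
  have := E_natCast h 1
  simpa using this

theorem map_E {S : Type*} [CommRing S] (φ : R →+* S) (a : ZMod n) : φ (E y a) = E (φ y) a := by
  simp [E]

theorem E_isUnit (h : y ^ n = 1) (a : ZMod n) : IsUnit (E y a) :=
  IsUnit.of_mul_eq_one (b := E y (-a)) (by rw [mul_comm]; exact E_neg h a)

end E

theorem unit_val_odd {k : ℕ} (t : (ZMod (2 ^ (k + 1)))ˣ) : (t : ZMod (2 ^ (k + 1))).val % 2 = 1 := by
  have h := ZMod.val_coe_unit_coprime t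
  have h2 : Nat.Coprime (t : ZMod (2 ^ (k + 1))).val 2 := Nat.Coprime.coprime_dvd_right
    (dvd_pow_self 2 (Nat.succ_ne_zero k)) h
  rcases Nat.mod_two_eq_zero_or_one (t : ZMod (2 ^ (k + 1))).val with h0 | h1
  · exfalso
    have : 2 ∣ (t : ZMod (2 ^ (k + 1))).val := Nat.dvd_of_mod_eq_zero h0
    have h3 := Nat.dvd_gcd this (dvd_refl 2)
    rw [h2] at h3
    norm_num at h3
  · exact h1

theorem neg_one_pow_unit {R : Type*} [CommRing R] {k : ℕ} (t : (ZMod (2 ^ (k + 1)))ˣ) :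
    (-1 : R) ^ (t : ZMod (2 ^ (k + 1))).val = -1 := by
  apply Odd.neg_one_pow
  rw [Nat.odd_iff]
  exact unit_val_odd t

section prod
variable {R : Type*} [CommRing R]

theorem prod_odd (k : ℕ) : ∀ (y : R) (_ : y ^ (2 ^ k) = -1) (G : R),
    ∏ i ∈ range (2 ^ k), (1 - G * y ^ (2 * i + 1)) = 1 + G ^ (2 ^ k) := by
  induction k with
  | zero => intro y hy G; simp at hy; simp [hy]
  | succ k ih =>
    intro y hy G
    have h2 : (y ^ 2) ^ (2 ^ k) = -1 := by rw [← pow_mul, mul_comm, ← pow_succ]; exact hy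
    have := ih (y ^ 2) h2 (G ^ 2)
    rw [pow_succ, mul_two, Finset.prod_range_add, ← Finset.prod_mul_distrib]
    rw [← mul_two, ← pow_succ, pow_succ' 2 k, pow_mul, ← this]
    apply Finset.prod_congr rfl
    intro i _
    have e1 : y ^ (2 * (2 ^ k + i) + 1) = - y ^ (2 * i + 1) := by
      rw [show 2 * (2 ^ k + i) + 1 = 2 ^ (k + 1) + (2 * i + 1) by ring, pow_add, hy]; ring
    rw [e1]
    ring

/-- a product over the units modulo `2^(k+1)` is a product over odd numbers -/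
theorem prod_units {M : Type*} [CommMonoid M] (k : ℕ) (f : ℕ → M) :
    ∏ t : (ZMod (2 ^ (k + 1)))ˣ, f (t : ZMod (2 ^ (k + 1))).val
      = ∏ i ∈ range (2 ^ k), f (2 * i + 1) := by
  refine Finset.prod_bij' (fun t _ => (t : ZMod (2 ^ (k + 1))).val / 2)
    (fun i _ => ZMod.unitOfCoprime (2 * i + 1) (by
      apply Nat.Coprime.pow_right
      rw [Nat.coprime_two_right]
      exact odd_two_mul_add_one i)) ?_ ?_ ?_ ?_ ?_
  · intro t _
    have h := ZMod.val_lt (t : ZMod (2 ^ (k + 1)))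
    rw [mem_range]
    have h' : (t : ZMod (2 ^ (k + 1))).val < 2 ^ k * 2 := lt_of_lt_of_eq h (pow_succ 2 k)
    omega
  · intro i _; exact mem_univ _
  · intro t _
    apply Units.ext
    rw [ZMod.coe_unitOfCoprime]
    have h1 := unit_val_odd t
    have : 2 * ((t : ZMod (2 ^ (k + 1))).val / 2) + 1 = (t : ZMod (2 ^ (k + 1))).val := by omega
    rw [this, ZMod.natCast_zmod_val]
  · intro i hi
    rw [mem_range] at hi
    show (((ZMod.unitOfCoprime (2 * i + 1) _ : (ZMod (2 ^ (k + 1)))ˣ) : ZMod (2 ^ (k + 1)))).val / 2 = i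
    rw [ZMod.coe_unitOfCoprime, ZMod.val_natCast, Nat.mod_eq_of_lt]
    · omega
    · rw [pow_succ]; omega
  · intro t _
    have h1 := unit_val_odd t
    have : 2 * ((t : ZMod (2 ^ (k + 1))).val / 2) + 1 = (t : ZMod (2 ^ (k + 1))).val := by omega
    rw [this]

theorem prod_units_E (k : ℕ) (y : R) (hy : y ^ (2 ^ k) = -1) (G : R) :
    ∏ t : (ZMod (2 ^ (k + 1)))ˣ, (1 - G * E y (t : ZMod (2 ^ (k + 1)))) = 1 + G ^ (2 ^ k) := by
  rw [← prod_odd k y hy G]
  exact prod_units k (fun i => 1 - G * y ^ i)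

end prod

end Pool.Agent.H140.FJ
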